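import Mathlib

/-!
# Rational preperiodic points of rational maps: definitions

Binary forms of degree `n` over a field are written as polynomials of degree `≤ n`
(`p` stands for `∑ p_i x^i y^(n-i)`), self maps of the projective line of degree `d` as pairs of
such polynomials.
-/

set_option autoImplicit false

open Polynomial Filter Topology

namespace Pool.Agent.RatPre

/-- The wedge product of two vectors. -/
def wd {K : Type*} [CommRing K] (x y : K × K) : K := x.1 * y.2 - x.2 * y.1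

/-- Value at `x` of the binary form of degree `n` with coefficients `p`. -/
noncomputable def ev {K : Type*} [CommRing K] (n : ℕ) (p : K[X]) (x : K × K) : K :=
  ∑ i ∈ Finset.range (n + 1), p.coeff i * x.1 ^ i * x.2 ^ (n - i)

/-- The self map of `K × K` given by a pair of binary forms of degree `d`. -/
noncomputable def app {K : Type*} [CommRing K] (d : ℕ) (F : K[X] × K[X]) (x : K × K) : K × K :=
  (ev d F.1 x, ev d F.2 x)

/-- The homogeneous resultant of a pair of binary forms of degree `d`. -/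
noncomputable def Rs {K : Type*} [CommRing K] (d : ℕ) (F : K[X] × K[X]) : K :=
  resultant F.1 F.2 d d

/-- `F` is a pair of binary forms of degree `d` with nonzero resultant. -/
def IsMap {K : Type*} [CommRing K] (d : ℕ) (F : K[X] × K[X]) : Prop :=
  F.1.natDegree ≤ d ∧ F.2.natDegree ≤ d ∧ Rs d F ≠ 0

/-- The linear map with matrix `A`. -/
def act {K : Type*} [CommRing K] (A : Matrix (Fin 2) (Fin 2) K) (x : K × K) : K × K :=
  (A 0 0 * x.1 + A 0 1 * x.2, A 1 0 * x.1 + A 1 1 * x.2)

/-- `F'` is the conjugate `γ A⁻¹ ∘ F ∘ A` of `F`. -/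
def Cj {K : Type*} [Field K] (d : ℕ) (F F' : K[X] × K[X]) (A : Matrix (Fin 2) (Fin 2) K)
    (γ : K) : Prop :=
  F'.1.natDegree ≤ d ∧ F'.2.natDegree ≤ d ∧ A.det ≠ 0 ∧ γ ≠ 0 ∧
    ∀ x : K × K, act A (app d F' x) = γ • app d F (act A x)

/-- The matrix `diag(1, l)`. -/
def dg {K : Type*} [CommRing K] (l : K) : Matrix (Fin 2) (Fin 2) K := !![1, 0; 0, l]

/-- The binary form `p` of degree `n` composed with a pair of forms `P`. -/
noncomputable def hc {K : Type*} [CommRing K] (n : ℕ) (p : K[X]) (P : K[X] × K[X]) : K[X] :=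
  ∑ i ∈ Finset.range (n + 1), C (p.coeff i) * P.1 ^ i * P.2 ^ (n - i)

/-- The special basis of the forms of degree `d ^ m - 1`: the form with index `i < d ^ m`. -/
noncomputable def Phi {K : Type*} [CommRing K] (d : ℕ) (F : K[X] × K[X]) : ℕ → ℕ → K[X]
  | 0, _ => 1
  | m + 1, i => X ^ (i % d) * hc (d ^ m - 1) (Phi d F m (i / d)) F

/-- The exponent of the resultant in the determinant of the special basis. -/
def em (d : ℕ) : ℕ → ℕ
  | 0 => 0
  | m + 1 => d * em d m + d ^ m * (d ^ m - 1) / 2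

section abs

variable {K : Type*} [Field K] (v : AbsoluteValue K ℝ)

/-- The sup norm. -/
noncomputable def nm (x : K × K) : ℝ := max (v x.1) (v x.2)

/-- `F` is normalised: its largest coefficient has absolute value one. -/
def Nrm (d : ℕ) (F : K[X] × K[X]) : Prop :=
  (∀ i, v (F.1.coeff i) ≤ 1) ∧ (∀ i, v (F.2.coeff i) ≤ 1) ∧
    ∃ i ≤ d, v (F.1.coeff i) = 1 ∨ v (F.2.coeff i) = 1

/-- `κ(F) = - log |Res F| / (d (d - 1))`. -/
noncomputable def kp (d : ℕ) (F : K[X] × K[X]) : ℝ :=
  -Real.log (v (Rs d F)) / ((d : ℝ) * ((d : ℝ) - 1))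

/-- The homogeneous escape rate (normalised so that it is `log ‖x‖` for good reduction). -/
noncomputable def HH (d : ℕ) (F : K[X] × K[X]) (x : K × K) : ℝ :=
  limUnder atTop (fun n : ℕ => Real.log (nm v ((app d F)^[n] x)) / (d : ℝ) ^ n)

/-- The Green function. -/
noncomputable def gg (d : ℕ) (F : K[X] × K[X]) (x y : K × K) : ℝ :=
  -Real.log (v (wd x y)) + HH v d F x + HH v d F y + kp v d F

/-- The supremum of the escape rate on the lattice `A (unit ball)`. -/
noncomputable def GG (d : ℕ) (F : K[X] × K[X]) (A : Matrix (Fin 2) (Fin 2) K) : ℝ :=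
  ⨆ x : {x : K × K // x ≠ 0}, (HH v d F (act A x) - Real.log (nm v x))

/-- The energy at the lattice `A (unit ball)`. -/
noncomputable def EE (d : ℕ) (F : K[X] × K[X]) (A : Matrix (Fin 2) (Fin 2) K) : ℝ :=
  kp v d F - Real.log (v A.det) + 2 * GG v d F A

/-- The hypotheses on the valued field used in the local theory. -/
structure Loc : Prop where
  /-- dense value group -/
  q3 : ∀ t : ℝ, 0 ≤ t → ∃ l : K, l ≠ 0 ∧ Real.exp (-t - 1) ≤ v l ∧ v l ≤ Real.exp (-t)
  /-- Cauchy estimate -/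
  q4 : ∀ (p : K[X]) (B : ℝ), (∀ x, v x ≤ 1 → v (p.eval x) ≤ B) → ∀ i, v (p.coeff i) ≤ B
  /-- avoiding finitely many points -/
  q5 : ∀ (n : ℕ) (b : Fin n → K × K), (∀ i, nm v (b i) = 1) →
    ∃ x : K × K, nm v x = 1 ∧ Real.exp (-(n : ℝ)) ≤ ∏ i, v (wd x (b i))

/-- The minimality property of a system of coordinates (see the blueprint). -/
def EMin (d : ℕ) (F : K[X] × K[X]) : Prop :=
  ∀ A : Matrix (Fin 2) (Fin 2) K, A.det ≠ 0 → (kp v d F - 1) / 32 - 50 ≤ EE v d F A

end abs

/-! ### global objects -/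

/-- A pair of integral forms over a field. -/
noncomputable def FK (K : Type*) [Field K] (F : ℤ[X] × ℤ[X]) : K[X] × K[X] :=
  (F.1.map (Int.castRingHom K), F.2.map (Int.castRingHom K))

/-- An integral vector over a field. -/
def zc (K : Type*) [Field K] (x : ℤ × ℤ) : K × K := (x.1, x.2)

/-- The absolute value of `ℂ`. -/
noncomputable def vC : AbsoluteValue ℂ ℝ := NormedField.toAbsoluteValue ℂ

/-- The absolute value of the algebraic closure of `ℚ_p`. -/
noncomputable def vP (p : ℕ) [Fact p.Prime] : AbsoluteValue (PadicAlgCl p) ℝ :=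
  NormedField.toAbsoluteValue (PadicAlgCl p)

open scoped Classical in
/-- The local Green function at `p` (zero if `p` is not prime). -/
noncomputable def gP (p d : ℕ) (F : ℤ[X] × ℤ[X]) (x y : ℤ × ℤ) : ℝ :=
  if h : p.Prime then
    haveI : Fact p.Prime := ⟨h⟩
    gg (vP p) d (FK (PadicAlgCl p) F) (zc (PadicAlgCl p) x) (zc (PadicAlgCl p) y)
  else 0

/-- The local Green function at the archimedean place. -/
noncomputable def gC (d : ℕ) (F : ℤ[X] × ℤ[X]) (x y : ℤ × ℤ) : ℝ :=
  gg vC d (FK ℂ F) (zc ℂ x) (zc ℂ y)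

/-- A nonzero integral vector whose projective point is preperiodic. -/
def PP (d : ℕ) (F : ℤ[X] × ℤ[X]) (x : ℤ × ℤ) : Prop :=
  x ≠ 0 ∧ ∃ m n : ℕ, m < n ∧ wd ((app d F)^[m] x) ((app d F)^[n] x) = 0

/-- Potentially good reduction at `p`: over the algebraic closure of `ℚ_p` the map is conjugate
to a map with integral coefficients whose reduction has no common zero. -/
def PotGood (p : ℕ) [Fact p.Prime] (d : ℕ) (F : (PadicAlgCl p)[X] × (PadicAlgCl p)[X]) : Prop :=
  ∃ (F' : (PadicAlgCl p)[X] × (PadicAlgCl p)[X]) (A : Matrix (Fin 2) (Fin 2) (PadicAlgCl p))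
    (γ : PadicAlgCl p), Cj d F F' A γ ∧ (∀ i, ‖F'.1.coeff i‖ ≤ 1) ∧ (∀ i, ‖F'.2.coeff i‖ ≤ 1) ∧
      ∀ x : PadicAlgCl p × PadicAlgCl p, nm (vP p) (app d F' x) = nm (vP p) x ^ d

end Pool.Agent.RatPre
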