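import Pool.Agent.RatPre.Defs

/-!
# Rational preperiodic points of rational maps: targets (proofs in Blueprint.lean.txt)
-/

set_option autoImplicit false

open Polynomial Filter Topology

namespace Pool.Agent.RatPre

/-! ### A. algebra of forms and resultants -/

/-- BAS: basic facts. -/
def T_BAS : Prop := ∀ (K : Type) [Field K] (d : ℕ),
  (∀ (n m : ℕ) (p : K[X]) (P : K[X] × K[X]), P.1.natDegree ≤ m → P.2.natDegree ≤ m →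
    (hc n p P).natDegree ≤ n * m ∧
    ∀ x : K × K, ev (n * m) (hc n p P) x = ev n p (app m P x)) ∧
  (∀ (n : ℕ) (p : K[X]) (c : K) (x : K × K), ev n p (c • x) = c ^ n * ev n p x) ∧
  (1 ≤ d → ∀ (F : K[X] × K[X]), IsMap d F → ∀ x : K × K, x ≠ 0 → app d F x ≠ 0) ∧
  (∀ (F : K[X] × K[X]) (A : Matrix (Fin 2) (Fin 2) K) (γ : K), A.det ≠ 0 → γ ≠ 0 →
    F.1.natDegree ≤ d → F.2.natDegree ≤ d → ∃ F' : K[X] × K[X], Cj d F F' A γ)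

/-- ZERO. -/
def T_ZERO : Prop := ∀ (K : Type) [Field K] [IsAlgClosed K] (d : ℕ), 1 ≤ d →
  ∀ F : K[X] × K[X], F.1.natDegree ≤ d → F.2.natDegree ≤ d → Rs d F = 0 →
  ∃ x : K × K, x ≠ 0 ∧ app d F x = 0

/-- RESCJ: the resultant of a conjugate. -/
def T_RESCJ : Prop := ∀ (K : Type) [Field K] [Infinite K] (v : AbsoluteValue K ℝ) (d : ℕ), 1 ≤ d →
  ∀ (F F' : K[X] × K[X]) (A : Matrix (Fin 2) (Fin 2) K) (γ : K),
    F.1.natDegree ≤ d → F.2.natDegree ≤ d → Cj d F F' A γ →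
    v (Rs d F') = v γ ^ (2 * d) * v A.det ^ (d * (d - 1)) * v (Rs d F)

/-- RESPOST: the resultant after a linear map. -/
def T_RESPOST : Prop := ∀ (K : Type) [Field K] [Infinite K] (v : AbsoluteValue K ℝ) (d : ℕ), 1 ≤ d →
  ∀ (F F' : K[X] × K[X]) (B : Matrix (Fin 2) (Fin 2) K),
    F.1.natDegree ≤ d → F.2.natDegree ≤ d → F'.1.natDegree ≤ d → F'.2.natDegree ≤ d →
    (∀ x : K × K, app d F x = act B (app d F' x)) →
    v (Rs d F) = v B.det ^ d * v (Rs d F')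

/-- TMAP: the determinant of the map `(P_b) ↦ ∑ P_b f^b g^(n-1-b)`. -/
def T_TMAP : Prop := ∀ (K : Type) [Field K] (v : AbsoluteValue K ℝ) (d n : ℕ), 1 ≤ d → 1 ≤ n →
  ∀ f g : K[X], f.natDegree ≤ d → g.natDegree ≤ d →
    v (Matrix.det (Matrix.of fun i j : Fin (n * d) =>
      (X ^ ((i : ℕ) % d) * f ^ ((i : ℕ) / d) * g ^ (n - 1 - (i : ℕ) / d)).coeff (j : ℕ))) =
    v (resultant f g d d) ^ (n * (n - 1) / 2)

/-- DETB: the determinant of the special basis. -/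
def T_DETB : Prop := ∀ (K : Type) [Field K] (v : AbsoluteValue K ℝ) (d m : ℕ), 1 ≤ d →
  ∀ F : K[X] × K[X], F.1.natDegree ≤ d → F.2.natDegree ≤ d →
    (∀ i, (Phi d F m i).natDegree ≤ d ^ m - 1) ∧
    v (Matrix.det (Matrix.of fun i j : Fin (d ^ m) => (Phi d F m i).coeff (j : ℕ))) =
      v (Rs d F) ^ em d m

/-- EM: the exponent. -/
def T_EM : Prop := ∀ d m : ℕ, 2 ≤ d → (em d m : ℝ) * ((d : ℝ) * ((d : ℝ) - 1)) =
  (d : ℝ) ^ m * ((d : ℝ) ^ m - 1) / 2 - (d : ℝ) ^ m * m * ((d : ℝ) - 1) / 2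

/-- PHIB: values of the special basis. -/
def T_PHIB : Prop := ∀ (K : Type) [Field K] (v : AbsoluteValue K ℝ) (d m : ℕ), 1 ≤ d →
  ∀ F : K[X] × K[X], F.1.natDegree ≤ d → F.2.natDegree ≤ d → ∀ (i : ℕ) (x : K × K),
    v (ev (d ^ m - 1) (Phi d F m i) x) ≤
      ∏ k ∈ Finset.range m, nm v ((app d F)^[k] x) ^ (d - 1)

/-- VDM: values of a basis at points. -/
def T_VDM : Prop := ∀ (K : Type) [Field K] (v : AbsoluteValue K ℝ) (N : ℕ), 1 ≤ N →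
  ∀ (p : Fin N → K[X]) (z : Fin N → K × K),
    v (Matrix.det (Matrix.of fun i j : Fin N => ev (N - 1) (p i) (z j))) =
      v (Matrix.det (Matrix.of fun i j : Fin N => (p i).coeff (j : ℕ))) *
      ∏ i, ∏ j ∈ Finset.Ioi i, v (wd (z i) (z j))

/-- DETBD: the Leibniz bound by columns. -/
def T_DETBD : Prop := ∀ (K : Type) [Field K] (v : AbsoluteValue K ℝ) (N : ℕ)
  (M : Matrix (Fin N) (Fin N) K) (b : Fin N → ℝ), (∀ i j, v (M i j) ≤ b j) →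
    v M.det ≤ N.factorial * ∏ j, b j

/-- FAC: factorisation of a form. -/
def T_FAC : Prop := ∀ (K : Type) [Field K] [IsAlgClosed K] (v : AbsoluteValue K ℝ) (n : ℕ)
  (p : K[X]), p ≠ 0 → p.natDegree ≤ n → ∃ (c : K) (a : Fin n → K × K), c ≠ 0 ∧
    (∀ i, nm v (a i) = 1) ∧ (∀ x : K × K, ev n p x = c * ∏ i, wd x (a i)) ∧
    ∀ i, v (p.coeff i) ≤ 2 ^ n * v c

/-- ITER: factorisation of the iterates. -/
def T_ITER : Prop := ∀ (K : Type) [Field K] [IsAlgClosed K] (v : AbsoluteValue K ℝ) (d : ℕ),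
  1 ≤ d → ∀ F : K[X] × K[X], IsMap d F → ∀ n : ℕ,
    (∃ (c : K) (a : Fin (d ^ n) → K × K), c ≠ 0 ∧ (∀ i, nm v (a i) = 1) ∧
      ∀ x : K × K, ((app d F)^[n] x).1 = c * ∏ i, wd x (a i)) ∧
    (∃ (c : K) (a : Fin (d ^ n) → K × K), c ≠ 0 ∧ (∀ i, nm v (a i) = 1) ∧
      ∀ x : K × K, ((app d F)^[n] x).2 = c * ∏ i, wd x (a i))

/-! ### B. local estimates -/

/-- UP: upper bound for the resultant. -/
def T_UP : Prop := ∀ (K : Type) [Field K] (v : AbsoluteValue K ℝ) (d : ℕ)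
  (F : K[X] × K[X]) (a b : ℝ), (∀ i, v (F.1.coeff i) ≤ a) → (∀ i, v (F.2.coeff i) ≤ b) →
    v (Rs d F) ≤ (2 * d).factorial * a ^ d * b ^ d

/-- LOW: bounds for one application of the map. -/
def T_LOW : Prop := ∀ (K : Type) [Field K] (v : AbsoluteValue K ℝ) (d : ℕ), 1 ≤ d →
  ∀ F : K[X] × K[X], F.1.natDegree ≤ d → F.2.natDegree ≤ d →
    (∀ i, v (F.1.coeff i) ≤ 1) → (∀ i, v (F.2.coeff i) ≤ 1) → ∀ x : K × K,
    v (Rs d F) * nm v x ^ d ≤ (2 * d).factorial * nm v (app d F x) ∧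
    nm v (app d F x) ≤ (d + 1) * nm v x ^ d

/-- HHN: the escape rate of a map. -/
def T_HH : Prop := ∀ (K : Type) [Field K] (v : AbsoluteValue K ℝ) (d : ℕ), 2 ≤ d →
  ∀ F : K[X] × K[X], IsMap d F →
    (∀ x : K × K, x ≠ 0 → Tendsto (fun n : ℕ => Real.log (nm v ((app d F)^[n] x)) / (d : ℝ) ^ n)
      atTop (𝓝 (HH v d F x))) ∧
    (∀ x : K × K, x ≠ 0 → HH v d F (app d F x) = d * HH v d F x) ∧
    (∀ (x : K × K) (c : K), x ≠ 0 → c ≠ 0 → HH v d F (c • x) = HH v d F x + Real.log (v c)) ∧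
    (∃ B : ℝ, 0 ≤ B ∧ ∀ x : K × K, x ≠ 0 → |HH v d F x - Real.log (nm v x)| ≤ B) ∧
    (Nrm v d F → -2 ≤ kp v d F ∧ ∀ x : K × K, x ≠ 0 →
      -(d * (kp v d F + 2)) ≤ HH v d F x - Real.log (nm v x) ∧
      HH v d F x - Real.log (nm v x) ≤ 2)

/-- CJ: behaviour under conjugation. -/
def T_CJ : Prop := ∀ (K : Type) [Field K] [Infinite K] (v : AbsoluteValue K ℝ) (d : ℕ), 2 ≤ d →
  ∀ (F F' : K[X] × K[X]) (A : Matrix (Fin 2) (Fin 2) K) (γ : K), IsMap d F → Cj d F F' A γ →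
    IsMap d F' ∧
    (∀ x : K × K, x ≠ 0 → HH v d F' x = HH v d F (act A x) + Real.log (v γ) / ((d : ℝ) - 1)) ∧
    kp v d F' = kp v d F - Real.log (v A.det) - 2 * Real.log (v γ) / ((d : ℝ) - 1) ∧
    (∀ x y : K × K, x ≠ 0 → y ≠ 0 → wd x y ≠ 0 → gg v d F' x y = gg v d F (act A x) (act A y)) ∧
    (∀ B : Matrix (Fin 2) (Fin 2) K, B.det ≠ 0 → EE v d F' B = EE v d F (A * B))

/-- NRMEX: normalised conjugates exist; every nonzero pair has a normalised multiple. -/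
def T_NRMEX : Prop := ∀ (K : Type) [Field K] [Infinite K] (v : AbsoluteValue K ℝ) (d : ℕ), 2 ≤ d →
  ∀ (F : K[X] × K[X]) (A : Matrix (Fin 2) (Fin 2) K), IsMap d F → A.det ≠ 0 →
    ∃ (F' : K[X] × K[X]) (γ : K), Cj d F F' A γ ∧ Nrm v d F'

/-- PMAIN: positivity of the energy for the standard lattices. -/
def T_P1 : Prop := ∀ (K : Type) [Field K] (v : AbsoluteValue K ℝ), Loc v → ∀ (d : ℕ), 2 ≤ d →
  ∀ F : K[X] × K[X], IsMap d F →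
    0 ≤ kp v d F + 2 * GG v d F 1 ∧
    ∀ l : K, l ≠ 0 → v l ≤ 1 →
      0 ≤ GG v d F 1 - GG v d F (dg l) ∧
      (GG v d F 1 - GG v d F (dg l)) ^ 2 ≤ -Real.log (v l) * (kp v d F + 2 * GG v d F 1)

/-- PA: positivity of the energy for all lattices. -/
def T_PA : Prop := ∀ (K : Type) [Field K] [Infinite K] (v : AbsoluteValue K ℝ), Loc v →
  ∀ (d : ℕ), 2 ≤ d → ∀ F : K[X] × K[X], IsMap d F → ∀ A : Matrix (Fin 2) (Fin 2) K, A.det ≠ 0 →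
    0 ≤ EE v d F A ∧
    ∀ l : K, l ≠ 0 → v l ≤ 1 →
      (GG v d F A - GG v d F (A * dg l)) ^ 2 ≤ -Real.log (v l) * EE v d F A

/-- DEC: elementary divisors of a normalised map. -/
def T_DEC : Prop := ∀ (K : Type) [Field K] [Infinite K] (v : AbsoluteValue K ℝ) (d : ℕ), 2 ≤ d →
  ∀ F : K[X] × K[X], IsMap d F → Nrm v d F →
    ∃ (U : Matrix (Fin 2) (Fin 2) K) (l : K) (F' : K[X] × K[X]),
      v U.det = 1 ∧ (∀ x : K × K, nm v (act U x) ≤ 2 * nm v x) ∧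
      (∀ x : K × K, nm v x ≤ 2 * nm v (act U x)) ∧ l ≠ 0 ∧ v l ≤ 1 ∧
      -Real.log (v l) ≤ ((d : ℝ) - 1) * (kp v d F + 4) ∧
      F'.1.natDegree ≤ d ∧ F'.2.natDegree ≤ d ∧
      (∀ x : K × K, app d F x = act (U * dg l) (app d F' x)) ∧
      ∀ a : K × K, ∃ i ≤ d, nm v a ≤ 4 * v (F'.1.coeff i * a.2 - F'.2.coeff i * a.1)

/-- GS: the Gauss lemma. -/
def T_GS : Prop := ∀ (K : Type) [Field K] [IsAlgClosed K] (v : AbsoluteValue K ℝ), Loc v →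
  ∀ (d : ℕ), 2 ≤ d → ∀ F F' : K[X] × K[X], IsMap d F → F'.1.natDegree ≤ d → F'.2.natDegree ≤ d →
    ∀ A : Matrix (Fin 2) (Fin 2) K, A.det ≠ 0 →
      (∀ x : K × K, app d F x = act A (app d F' x)) →
      (∀ a : K × K, ∃ i ≤ d, nm v a ≤ 4 * v (F'.1.coeff i * a.2 - F'.2.coeff i * a.1)) →
      GG v d F A ≤ d * GG v d F 1 + 3 * d

/-- KEY: the energy controls the resultant. -/
def T_KEY : Prop := ∀ (K : Type) [Field K] [IsAlgClosed K] (v : AbsoluteValue K ℝ), Loc v →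
  ∀ (d : ℕ), 2 ≤ d → ∀ F : K[X] × K[X], IsMap d F → Nrm v d F →
    kp v d F / 32 - 50 ≤ kp v d F + 2 * GG v d F 1

/-- MIN: minimal coordinates. -/
def T_MIN : Prop := ∀ (K : Type) [Field K] [IsAlgClosed K] (v : AbsoluteValue K ℝ), Loc v →
  ∀ (d : ℕ), 2 ≤ d → ∀ F : K[X] × K[X], IsMap d F →
    ∃ (F' : K[X] × K[X]) (A : Matrix (Fin 2) (Fin 2) K) (γ : K), Cj d F F' A γ ∧ Nrm v d F' ∧
      EMin v d F'

/-- LB: lower bound for the sum of the Green function over pairs. -/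
def T_LB : Prop := ∀ (K : Type) [Field K] (v : AbsoluteValue K ℝ) (d : ℕ), 2 ≤ d →
  ∀ F : K[X] × K[X], IsMap d F → Nrm v d F → ∀ (m : ℕ) (z : Fin (d ^ m) → K × K),
    (∀ i, z i ≠ 0) → (∀ i j, i ≠ j → wd (z i) (z j) ≠ 0) →
    -((d : ℝ) ^ m * m * (d : ℝ) ^ 2 * (kp v d F + 3)) ≤
      ∑ i, ∑ j ∈ Finset.Ioi i, gg v d F (z i) (z j)

/-- UMAT: unimodular matrices with given first column. -/
def T_UMAT : Prop := ∀ (K : Type) [Field K] (v : AbsoluteValue K ℝ) (a : K × K), nm v a = 1 →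
  ∃ U : Matrix (Fin 2) (Fin 2) K, v U.det = 1 ∧ U 0 0 = a.1 ∧ U 1 0 = a.2 ∧
    (∀ i j, v (U i j) ≤ 1) ∧ (∀ x : K × K, nm v (act U x) ≤ 2 * nm v x) ∧
    (∀ x : K × K, nm v x ≤ 2 * nm v (act U x))

/-- SAME: the Green function at two points with the same nearest zero and the same distance. -/
def T_SAME : Prop := ∀ (K : Type) [Field K] [IsAlgClosed K] (v : AbsoluteValue K ℝ), Loc v →
  ∀ (d : ℕ), 2 ≤ d → ∀ F : K[X] × K[X], IsMap d F → Nrm v d F → ∀ k : ℕ,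
  ∀ (Z : Finset (K × K)), (∀ b ∈ Z, nm v b = 1) →
    (∃ (c : K) (a : Fin (d ^ k) → K × K), c ≠ 0 ∧ (∀ i, a i ∈ Z) ∧
      ∀ x : K × K, ((app d F)^[k] x).1 = c * ∏ i, wd x (a i)) →
    (∃ (c : K) (a : Fin (d ^ k) → K × K), c ≠ 0 ∧ (∀ i, a i ∈ Z) ∧
      ∀ x : K × K, ((app d F)^[k] x).2 = c * ∏ i, wd x (a i)) →
  ∀ (a : K × K) (U : Matrix (Fin 2) (Fin 2) K) (l : K) (τ η : ℝ), a ∈ Z → v U.det = 1 →
    U 0 0 = a.1 → U 1 0 = a.2 → (∀ i j, v (U i j) ≤ 1) → 1 ≤ η → -η ≤ τ → l ≠ 0 →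
    Real.exp (-(max τ 0) - 1) ≤ v l → v l ≤ Real.exp (-(max τ 0)) →
  ∀ x : K × K, nm v x = 1 → (∀ b ∈ Z, v (wd x a) ≤ v (wd x b)) → v (wd x a) ≤ Real.exp (-τ) →
    Real.exp (-(τ + η)) ≤ v (wd x a) →
    GG v d F (U * dg l) - η - 2 - (d * (kp v d F + 3)) / (d : ℝ) ^ k ≤ HH v d F x

/-- CLS: the classes. -/
def T_CLS : Prop := ∀ (K : Type) [Field K] [IsAlgClosed K] (v : AbsoluteValue K ℝ), Loc v →
  ∀ (d : ℕ), 2 ≤ d → ∀ F : K[X] × K[X], IsMap d F → Nrm v d F → EMin v d F →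
    ∃ (σ : Type) (_ : Fintype σ) (cl : K × K → σ), (Fintype.card σ : ℝ) ≤ 250000 * (d : ℝ) ^ 3 ∧
      ∀ x y : K × K, x ≠ 0 → y ≠ 0 → wd x y ≠ 0 → cl x = cl y →
        kp v d F / 100 - 60 ≤ gg v d F x y

/-- CAP: small caps of the complex projective line. -/
def T_CAP : Prop := ∀ r : ℝ, 0 < r → ∃ (M : ℕ) (cap : ℂ × ℂ → Fin M),
  ∀ x y : ℂ × ℂ, x ≠ 0 → y ≠ 0 → cap x = cap y → vC (wd x y) ≤ r * nm vC x * nm vC y

/-- CLSC: the refined classes over the complex numbers. -/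
def T_CLSC : Prop := ∃ C0 : ℝ, ∀ (d : ℕ), 2 ≤ d → ∀ F : ℂ[X] × ℂ[X], IsMap d F → Nrm vC d F →
    EMin vC d F → ∃ (σ : Type) (_ : Fintype σ) (cl : ℂ × ℂ → σ),
      (Fintype.card σ : ℝ) ≤ C0 * (d : ℝ) ^ 3 ∧
      ∀ x y : ℂ × ℂ, x ≠ 0 → y ≠ 0 → wd x y ≠ 0 → cl x = cl y →
        kp vC d F / 100 + 10 ≤ gg vC d F x y

/-- LOCC: the complex numbers satisfy the hypotheses. -/
def T_LOCC : Prop := Loc vC

/-- LOCP: the algebraic closures of the p-adic numbers satisfy the hypotheses. -/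
def T_LOCP : Prop := ∀ (p : ℕ) [Fact p.Prime], Loc (vP p)

/-- PINT: the absolute value of an integer. -/
def T_PINT : Prop := ∀ (p : ℕ) [Fact p.Prime] (n : ℤ),
  vP p (n : PadicAlgCl p) = (padicNorm p n : ℝ) ∧
  ∀ x y : PadicAlgCl p, vP p (x + y) ≤ max (vP p x) (vP p y)

/-- LOCAL: the local theorem. -/
def T_LOCAL : Prop := ∀ (K : Type) [Field K] [IsAlgClosed K] (v : AbsoluteValue K ℝ), Loc v →
  ∀ (d : ℕ), 2 ≤ d → ∀ F : K[X] × K[X], IsMap d F → ∃ κ : ℝ, -2 ≤ κ ∧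
    (∀ (m : ℕ) (z : Fin (d ^ m) → K × K),
      (∀ i, z i ≠ 0) → (∀ i j, i ≠ j → wd (z i) (z j) ≠ 0) →
      -((d : ℝ) ^ m * m * (d : ℝ) ^ 2 * (κ + 3)) ≤
        ∑ i, ∑ j ∈ Finset.Ioi i, gg v d F (z i) (z j)) ∧
    ∃ (σ : Type) (_ : Fintype σ) (cl : K × K → σ), (Fintype.card σ : ℝ) ≤ 250000 * (d : ℝ) ^ 3 ∧
      ∀ x y : K × K, x ≠ 0 → y ≠ 0 → wd x y ≠ 0 → cl x = cl y → κ / 100 - 60 ≤ gg v d F x y

/-- LOCALC: the local theorem over the complex numbers. -/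
def T_LOCALC : Prop := ∃ C0 : ℝ, ∀ (d : ℕ), 2 ≤ d → ∀ F : ℂ[X] × ℂ[X], IsMap d F →
  ∃ κ : ℝ, -2 ≤ κ ∧
    (∀ (m : ℕ) (z : Fin (d ^ m) → ℂ × ℂ),
      (∀ i, z i ≠ 0) → (∀ i j, i ≠ j → wd (z i) (z j) ≠ 0) →
      -((d : ℝ) ^ m * m * (d : ℝ) ^ 2 * (κ + 3)) ≤
        ∑ i, ∑ j ∈ Finset.Ioi i, gg vC d F (z i) (z j)) ∧
    ∃ (σ : Type) (_ : Fintype σ) (cl : ℂ × ℂ → σ), (Fintype.card σ : ℝ) ≤ C0 * (d : ℝ) ^ 3 ∧
      ∀ x y : ℂ × ℂ, x ≠ 0 → y ≠ 0 → wd x y ≠ 0 → cl x = cl y → κ / 100 + 10 ≤ gg vC d F x y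

/-! ### C. global part -/

/-- POT: nonnegativity at the primes of potentially good reduction. -/
def T_POT : Prop := ∀ (p : ℕ) [Fact p.Prime] (d : ℕ), 2 ≤ d →
  ∀ F : (PadicAlgCl p)[X] × (PadicAlgCl p)[X], IsMap d F → PotGood p d F →
    ∀ x y : PadicAlgCl p × PadicAlgCl p, x ≠ 0 → y ≠ 0 → wd x y ≠ 0 → 0 ≤ gg (vP p) d F x y

/-- GLOB: the sum of the local Green functions at two preperiodic points is nonpositive. -/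
def T_GLOB : Prop := ∀ (d : ℕ), 2 ≤ d → ∀ F : ℤ[X] × ℤ[X], IsMap d F →
  ∀ x y : ℤ × ℤ, PP d F x → PP d F y → wd x y ≠ 0 →
    gC d F x y + ∑ p ∈ (Rs d F).natAbs.primeFactors, gP p d F x y ≤ 0

/-- COUNT: the counting argument. -/
def T_COUNT : Prop := ∀ C0 : ℝ, ∃ C : ℝ, ∀ (d : ℕ), 2 ≤ d → ∀ (ι : Type) (V : Finset ι) (o : ι),
  o ∈ V → ∀ (κ : ι → ℝ) (T : Finset (ℤ × ℤ)) (g : ι → ℤ × ℤ → ℤ × ℤ → ℝ),
  (∀ u ∈ V, -2 ≤ κ u) →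
  (∀ u ∈ V, ∀ (m : ℕ) (z : Fin (d ^ m) → ℤ × ℤ), Function.Injective z → (∀ i, z i ∈ T) →
    -((d : ℝ) ^ m * m * (d : ℝ) ^ 2 * (κ u + 3)) ≤ ∑ i, ∑ j ∈ Finset.Ioi i, g u (z i) (z j)) →
  (∀ u ∈ V, ∃ (σ : Type) (_ : Fintype σ) (cl : ℤ × ℤ → σ),
    (Fintype.card σ : ℝ) ≤ C0 * (d : ℝ) ^ 3 ∧
    ∀ x ∈ T, ∀ y ∈ T, x ≠ y → cl x = cl y → κ u / 100 - 60 ≤ g u x y) →
  (∃ (σ : Type) (_ : Fintype σ) (cl : ℤ × ℤ → σ),
    (Fintype.card σ : ℝ) ≤ C0 * (d : ℝ) ^ 3 ∧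
    ∀ x ∈ T, ∀ y ∈ T, x ≠ y → cl x = cl y → κ o / 100 + 10 ≤ g o x y) →
  (∀ x ∈ T, ∀ y ∈ T, x ≠ y → ∑ u ∈ V, g u x y ≤ 0) →
  (T.card : ℝ) ≤ C * (d : ℝ) ^ 7 * V.card * Real.log (V.card + 1)

/-- MAIN: the theorem for integral forms. -/
def T_MAIN : Prop := ∃ C : ℝ, ∀ (d : ℕ), 2 ≤ d → ∀ F : ℤ[X] × ℤ[X], IsMap d F →
  ∀ S : Finset ℕ, (∀ (p : ℕ) [Fact p.Prime], p ∉ S → PotGood p d (FK (PadicAlgCl p) F)) →
  ∀ T : Finset (ℤ × ℤ), (∀ x ∈ T, PP d F x) → (∀ x ∈ T, ∀ y ∈ T, x ≠ y → wd x y ≠ 0) →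
    (T.card : ℝ) ≤ C * (d : ℝ) ^ 7 * (S.card + 1) * Real.log (S.card + 2)

end Pool.Agent.RatPre
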